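import Mathlib

/-!
Definitions of Gelfand and Hilbert numbers; the orthonormal construction.
-/

namespace X190.GH

open Metric

variable {X : Type*} {Y : Type*} [NormedAddCommGroup X] [NormedSpace ℝ X]
  [NormedAddCommGroup Y] [NormedSpace ℝ Y]

/-- The Gelfand numbers of `S` on the set `F`. -/
noncomputable def gelfand (n : ℕ) (S : X →L[ℝ] Y) (F : Set X) : ℝ :=
  ⨅ L : Fin n → (X →L[ℝ] ℝ),
    sSup {r : ℝ | ∃ f ∈ F, ∃ g ∈ F, (∀ k, L k f = L k g) ∧ r = (1 / 2) * ‖S f - S g‖}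

/-- The real sequence space `ℓ_2`. -/
abbrev Ell2 : Type := lp (fun _ : ℕ => ℝ) 2

/-- The Hilbert numbers of `S` on the set `F`. -/
noncomputable def hilbertNum (n : ℕ) (S : X →L[ℝ] Y) (F : Set X) : ℝ :=
  sSup {r : ℝ | ∃ (B : Y →L[ℝ] Ell2) (A : Ell2 →L[ℝ] X) (x : X), ‖B‖ ≤ 1 ∧ x ∈ F ∧
    (∀ v : Ell2, ‖v‖ ≤ 1 → A v + x ∈ F) ∧ r = gelfand n (B ∘L S ∘L A) (closedBall 0 1)}

theorem inner_set_bdd (n : ℕ) (S : X →L[ℝ] Y) (L : Fin n → (X →L[ℝ] ℝ)) :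
    BddAbove {r : ℝ | ∃ f ∈ closedBall (0 : X) 1, ∃ g ∈ closedBall (0 : X) 1,
      (∀ k, L k f = L k g) ∧ r = (1 / 2) * ‖S f - S g‖} := by
  refine ⟨‖S‖, ?_⟩
  rintro _ ⟨f, hf, g, hg, -, rfl⟩
  rw [mem_closedBall_zero_iff] at hf hg
  have h1 : ‖S f - S g‖ ≤ ‖S‖ * 2 := by
    rw [← map_sub]
    refine (S.le_opNorm _).trans (mul_le_mul_of_nonneg_left ?_ (norm_nonneg _))
    exact (norm_sub_le _ _).trans (by linarith)
  linarith

theorem inner_sup_nonneg (n : ℕ) (S : X →L[ℝ] Y) (L : Fin n → (X →L[ℝ] ℝ)) :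
    0 ≤ sSup {r : ℝ | ∃ f ∈ closedBall (0 : X) 1, ∃ g ∈ closedBall (0 : X) 1,
      (∀ k, L k f = L k g) ∧ r = (1 / 2) * ‖S f - S g‖} := by
  apply Real.sSup_nonneg
  rintro _ ⟨f, -, g, -, -, rfl⟩
  positivity

theorem gelfand_bdd (n : ℕ) (S : X →L[ℝ] Y) :
    BddBelow (Set.range fun L : Fin n → (X →L[ℝ] ℝ) =>
      sSup {r : ℝ | ∃ f ∈ closedBall (0 : X) 1, ∃ g ∈ closedBall (0 : X) 1,
        (∀ k, L k f = L k g) ∧ r = (1 / 2) * ‖S f - S g‖}) :=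
  ⟨0, by rintro _ ⟨L, rfl⟩; exact inner_sup_nonneg n S L⟩

theorem gelfand_nonneg (n : ℕ) (S : X →L[ℝ] Y) : 0 ≤ gelfand n S (closedBall 0 1) :=
  Real.iInf_nonneg fun L => inner_sup_nonneg n S L

/-- Lower bounds for Gelfand numbers. -/
theorem le_gelfand {n : ℕ} {S : X →L[ℝ] Y} {c : ℝ}
    (h : ∀ L : Fin n → (X →L[ℝ] ℝ), ∃ v : X, ‖v‖ ≤ 1 ∧ (∀ k, L k v = 0) ∧ c ≤ ‖S v‖) :
    c ≤ gelfand n S (closedBall 0 1) := by
  apply le_ciInf
  intro L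
  obtain ⟨v, hv1, hv2, hv3⟩ := h L
  refine le_csSup_of_le (inner_set_bdd n S L) ⟨v, by simpa using hv1, -v, by simpa using hv1, ?_,
    rfl⟩ ?_
  · intro k
    rw [map_neg, hv2, neg_zero]
  · rw [map_neg, sub_neg_eq_add, ← two_smul ℝ (S v), norm_smul]
    norm_num
    linarith

/-- Vectors witnessing a Gelfand number. -/
theorem exists_of_lt_gelfand {n : ℕ} {S : X →L[ℝ] Y} {c : ℝ} (hc0 : 0 ≤ c)
    (hc : c < gelfand n S (closedBall 0 1)) (L : Fin n → (X →L[ℝ] ℝ)) :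
    ∃ v : X, ‖v‖ ≤ 1 ∧ (∀ k, L k v = 0) ∧ c < ‖S v‖ := by
  have h1 := lt_of_lt_of_le hc (ciInf_le (gelfand_bdd n S) L)
  obtain ⟨_, ⟨f, hf, g, hg, hfg, rfl⟩, h2⟩ := exists_lt_of_lt_csSup (by
    exact ⟨_, 0, by simp, 0, by simp, fun _ => rfl, rfl⟩) h1
  rw [mem_closedBall_zero_iff] at hf hg
  refine ⟨(1 / 2 : ℝ) • (f - g), ?_, ?_, ?_⟩
  · rw [norm_smul]
    have := norm_sub_le f g
    norm_num
    linarith
  · intro k
    rw [map_smul, map_sub, hfg, sub_self, smul_zero]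
  · rw [map_smul, map_sub, norm_smul]
    norm_num
    norm_num at h2
    exact h2

theorem gelfand_le_norm (n : ℕ) (S : X →L[ℝ] Y) : gelfand n S (closedBall 0 1) ≤ ‖S‖ := by
  by_contra h
  push Not at h
  obtain ⟨v, hv1, -, hv3⟩ := exists_of_lt_gelfand (norm_nonneg S) h (fun _ => 0)
  have := S.le_opNorm v
  have h2 : ‖S‖ * ‖v‖ ≤ ‖S‖ * 1 := mul_le_mul_of_nonneg_left hv1 (norm_nonneg _)
  linarith

theorem gelfand_antitone (S : X →L[ℝ] Y) {m n : ℕ} (hmn : m ≤ n) :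
    gelfand n S (closedBall 0 1) ≤ gelfand m S (closedBall 0 1) := by
  by_contra h
  push Not at h
  have : gelfand n S (closedBall 0 1) ≤ gelfand m S (closedBall 0 1) := by
    apply le_of_forall_lt_imp_le_of_dense
    intro c hc
    rcases lt_or_ge c 0 with hc0 | hc0
    · exact hc0.le.trans (gelfand_nonneg m S)
    · apply le_gelfand
      intro L
      obtain ⟨v, hv1, hv2, hv3⟩ := exists_of_lt_gelfand hc0 hc
        (fun i : Fin n => if h : (i : ℕ) < m then L ⟨i, h⟩ else 0)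
      refine ⟨v, hv1, fun k => ?_, hv3.le⟩
      have := hv2 ⟨k, k.2.trans_le hmn⟩
      simpa using this
  linarith

/-- Lower bound for Hilbert numbers of the unit ball. -/
theorem le_hilbertNum {n : ℕ} {S : X →L[ℝ] Y} {c : ℝ} (B : Y →L[ℝ] Ell2) (A : Ell2 →L[ℝ] X)
    (hB : ‖B‖ ≤ 1) (hA : ‖A‖ ≤ 1) (h : c ≤ gelfand n (B ∘L S ∘L A) (closedBall 0 1)) :
    c ≤ hilbertNum n S (closedBall 0 1) := by
  refine le_csSup_of_le ⟨‖S‖, ?_⟩ ⟨B, A, 0, hB, by simp, ?_, rfl⟩ h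
  · rintro _ ⟨B, A, x, hB, hx, hA, rfl⟩
    refine (gelfand_le_norm _ _).trans ?_
    have hA1 : ‖A‖ ≤ 1 := by
      apply ContinuousLinearMap.opNorm_le_of_unit_norm zero_le_one
      intro v hv
      have h1 := hA v hv.le
      have h2 := hA (-v) (by rw [norm_neg]; exact hv.le)
      rw [mem_closedBall_zero_iff] at h1 h2
      have h3 : (2 : ℝ) • A v = (A v + x) - (A (-v) + x) := by
        rw [map_neg, two_smul]
        abel
      have h4 : ‖(2 : ℝ) • A v‖ ≤ 2 := by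
        rw [h3]
        exact (norm_sub_le _ _).trans (by linarith)
      rw [norm_smul] at h4
      norm_num at h4
      linarith
    calc ‖B ∘L S ∘L A‖ ≤ ‖B‖ * ‖S ∘L A‖ := ContinuousLinearMap.opNorm_comp_le _ _
      _ ≤ 1 * (‖S‖ * ‖A‖) := by
          apply mul_le_mul hB (ContinuousLinearMap.opNorm_comp_le _ _) (norm_nonneg _)
            (by norm_num)
      _ ≤ 1 * (‖S‖ * 1) := by
          gcongr
      _ = ‖S‖ := by ring
  · intro v hv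
    rw [add_zero, mem_closedBall_zero_iff]
    refine (A.le_opNorm v).trans ?_
    exact mul_le_one₀ hA (norm_nonneg _) hv

end X190.GH
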