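import Mathlib

/-!
The Gelfand-number lower bound for singular values in finite dimension.
-/

namespace X190.GH

open Module

variable {U V : Type*} [NormedAddCommGroup U] [InnerProductSpace ℝ U] [FiniteDimensional ℝ U]
  [NormedAddCommGroup V] [InnerProductSpace ℝ V] [FiniteDimensional ℝ V]

/-- For `k` linear conditions there is a vector killed by them on which `T` is at least the
`k`-th singular value. -/
theorem exists_ge_singularValue (T : U →ₗ[ℝ] V) {n : ℕ} (hn : finrank ℝ U = n) {k : ℕ}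
    (hk : k < n) (L : Fin k → (U →ₗ[ℝ] ℝ)) :
    ∃ v : U, ‖v‖ = 1 ∧ (∀ i, L i v = 0) ∧ T.singularValues k ≤ ‖T v‖ := by
  classical
  set hs := T.isSymmetric_adjoint_comp_self with hsdef
  let e := hs.eigenvectorBasis hn
  let ι : Fin (k + 1) → Fin n := Fin.castLE (by omega)
  have hι : Function.Injective ι := Fin.castLE_injective _
  have hon : Orthonormal ℝ (fun i => e (ι i)) := e.orthonormal.comp ι hι
  let comb : (Fin (k + 1) → ℝ) →ₗ[ℝ] U :=
    { toFun := fun c => ∑ i, c i • e (ι i)
      map_add' := by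
        intro a b
        simp [add_smul, Finset.sum_add_distrib]
      map_smul' := by
        intro a b
        simp [Finset.smul_sum, smul_smul] }
  let LL : (Fin (k + 1) → ℝ) →ₗ[ℝ] (Fin k → ℝ) := LinearMap.pi fun i => (L i).comp comb
  have hker : LinearMap.ker LL ≠ ⊥ := by
    apply LinearMap.ker_ne_bot_of_finrank_lt
    simp
  obtain ⟨c, hc1, hc2⟩ := Submodule.exists_mem_ne_zero_of_ne_bot hker
  have hLc : ∀ i, L i (comb c) = 0 := by
    intro i
    rw [LinearMap.mem_ker] at hc1
    exact congrFun hc1 i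
  have hnorm : ‖comb c‖ ^ 2 = ∑ i, c i ^ 2 := by
    rw [← real_inner_self_eq_norm_sq]
    change inner ℝ (∑ i, c i • e (ι i)) (∑ i, c i • e (ι i)) = _
    rw [hon.inner_sum]
    simp [sq]
  have hpos : 0 < ∑ i, c i ^ 2 := by
    obtain ⟨i, hi⟩ : ∃ i, c i ≠ 0 := by
      by_contra h
      push Not at h
      exact hc2 (funext h)
    exact Finset.sum_pos' (fun i _ => sq_nonneg _) ⟨i, Finset.mem_univ i, by positivity⟩
  have hTn : ‖T (comb c)‖ ^ 2 = ∑ i, c i ^ 2 * hs.eigenvalues hn (ι i) := by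
    rw [← real_inner_self_eq_norm_sq, ← LinearMap.adjoint_inner_left]
    have h1 : (LinearMap.adjoint T) (T (comb c))
        = ∑ i, (c i * hs.eigenvalues hn (ι i)) • e (ι i) := by
      have h2 : ∀ i, (LinearMap.adjoint T ∘ₗ T) (e (ι i))
          = (hs.eigenvalues hn (ι i)) • e (ι i) := by
        intro i
        exact hs.apply_eigenvectorBasis hn (ι i)
      change (LinearMap.adjoint T ∘ₗ T) (∑ i, c i • e (ι i)) = _
      rw [map_sum]
      apply Finset.sum_congr rfl
      intro i _
      rw [map_smul, h2, smul_smul]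
    rw [h1]
    change inner ℝ (∑ i, (c i * hs.eigenvalues hn (ι i)) • e (ι i)) (∑ i, c i • e (ι i)) = _
    rw [hon.inner_sum]
    apply Finset.sum_congr rfl
    intro i _
    simp
    ring
  have hge : T.singularValues k ^ 2 * ‖comb c‖ ^ 2 ≤ ‖T (comb c)‖ ^ 2 := by
    rw [hTn, hnorm, Finset.mul_sum, T.sq_singularValues_of_lt hn hk]
    apply Finset.sum_le_sum
    intro i _
    rw [mul_comm]
    apply mul_le_mul_of_nonneg_left _ (sq_nonneg _)
    apply hs.eigenvalues_antitone hn
    change (ι i : Fin n) ≤ ⟨k, hk⟩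
    rw [Fin.le_def]
    exact Nat.lt_succ_iff.mp i.2
  have hcn : 0 < ‖comb c‖ := by
    rw [← hnorm] at hpos
    refine lt_of_le_of_ne (norm_nonneg _) fun h => ?_
    rw [← h] at hpos
    norm_num at hpos
  refine ⟨(‖comb c‖)⁻¹ • comb c, ?_, ?_, ?_⟩
  · rw [norm_smul, norm_inv, norm_norm, inv_mul_cancel₀ hcn.ne']
  · intro i
    rw [map_smul, hLc, smul_zero]
  · rw [map_smul, norm_smul, norm_inv, norm_norm, ← div_eq_inv_mul, le_div_iff₀ hcn]
    rw [← mul_pow] at hge
    exact (pow_le_pow_iff_left₀ (mul_nonneg (T.singularValues_nonneg k) (norm_nonneg _))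
      (norm_nonneg _) two_ne_zero).mp hge

end X190.GH
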