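import Mathlib
import Pool.Agent.X190.GH.Build
import Pool.Agent.X190.GH.Sing

/-!
The orthonormal construction and the main inequality.
-/

namespace X190.GH

open Metric Module

variable {X : Type*} {Y : Type*} [NormedAddCommGroup X] [InnerProductSpace ℝ X]
  [NormedAddCommGroup Y] [NormedSpace ℝ Y]

/-- The Riesz vectors of the chosen functionals are automatically orthogonal. -/
theorem construct [CompleteSpace X] (S : X →L[ℝ] Y) (δ : ℕ → ℝ) (n : ℕ)
    (hδ : ∀ k < n, 0 ≤ δ k ∧ δ k < gelfand k S (closedBall 0 1)) :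
    ∃ (x : ℕ → X) (b : ℕ → (Y →L[ℝ] ℝ)),
      (∀ i < n, ‖x i‖ = 1 ∧ ‖b i‖ ≤ 1 ∧ δ i ≤ b i (S (x i))) ∧
      (∀ i < n, ∀ z, (∀ j ≤ i, b j (S z) = 0) → inner ℝ (x i) z = 0) ∧
      (∀ i < n, ∀ j < i, b j (S (x i)) = 0) := by
  induction n with
  | zero => exact ⟨fun _ => 0, fun _ => 0, by simp, by simp, by simp⟩
  | succ n ih =>
    obtain ⟨x, b, h1, h2, h3⟩ := ih fun k hk => hδ k (by omega)
    obtain ⟨hδ0, hδ1⟩ := hδ n (by omega)
    obtain ⟨v, hv1, hv2, hv3⟩ := exists_of_lt_gelfand hδ0 hδ1 (fun j : Fin n => (b j).comp S)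
    obtain ⟨b', hb1, hb2⟩ := exists_dual_vector'' ℝ (S v)
    let M : Submodule ℝ X :=
      { carrier := {z | ∀ j < n, b j (S z) = 0}
        add_mem' := by
          intro y z hy hz j hj
          rw [map_add, map_add, hy j hj, hz j hj, add_zero]
        zero_mem' := by
          intro j _
          rw [map_zero, map_zero]
        smul_mem' := by
          intro c y hy j hj
          rw [map_smul, map_smul, hy j hj, smul_zero] }
    have hMcl : IsClosed (M : Set X) := by
      have : (M : Set X) = ⋂ j : Fin n, {z | ((b j).comp S) z = 0} := by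
        ext z
        simp only [Set.mem_iInter]
        exact ⟨fun h j => h j j.2, fun h j hj => h ⟨j, hj⟩⟩
      rw [this]
      exact isClosed_iInter fun j => isClosed_eq ((b j).comp S).continuous continuous_const
    haveI : CompleteSpace M := hMcl.completeSpace_coe
    let w : M := (InnerProductSpace.toDual ℝ M).symm ((b'.comp S).comp M.subtypeL)
    have hw : ∀ z : M, inner ℝ (w : X) (z : X) = b' (S z) := by
      intro z
      have := InnerProductSpace.toDual_symm_apply (𝕜 := ℝ) (E := M) (x := z)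
        (y := (b'.comp S).comp M.subtypeL)
      exact this
    have hvM : v ∈ M := fun j hj => hv2 ⟨j, hj⟩
    have hwn : δ n < ‖(w : X)‖ := by
      have h4 := hw ⟨v, hvM⟩
      have h5 : inner ℝ (w : X) v ≤ ‖(w : X)‖ * ‖v‖ := real_inner_le_norm _ _
      have h6 : ‖(w : X)‖ * ‖v‖ ≤ ‖(w : X)‖ * 1 := mul_le_mul_of_nonneg_left hv1 (norm_nonneg _)
      change inner ℝ (w : X) v = b' (S v) at h4
      rw [hb2] at h4
      simp only [RCLike.ofReal_real_eq_id, id_eq] at h4
      linarith
    have hw0 : 0 < ‖(w : X)‖ := lt_of_le_of_lt hδ0 hwn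
    have hx'M : ‖(w : X)‖⁻¹ • (w : X) ∈ M := M.smul_mem _ w.2
    refine ⟨Function.update x n (‖(w : X)‖⁻¹ • (w : X)), Function.update b n b', ?_, ?_, ?_⟩
    · intro i hi
      rcases Nat.lt_succ_iff_lt_or_eq.mp hi with hi | rfl
      · rw [Function.update_of_ne hi.ne, Function.update_of_ne hi.ne]
        exact h1 i hi
      · rw [Function.update_self, Function.update_self]
        refine ⟨?_, hb1, ?_⟩
        · rw [norm_smul, norm_inv, norm_norm, inv_mul_cancel₀ hw0.ne']
        · rw [← hw ⟨_, hx'M⟩, real_inner_smul_right, real_inner_self_eq_norm_sq]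
          have : ‖(w : X)‖⁻¹ * ‖(w : X)‖ ^ 2 = ‖(w : X)‖ := by field_simp
          rw [this]
          exact hwn.le
    · intro i hi z hz
      rcases Nat.lt_succ_iff_lt_or_eq.mp hi with hi | rfl
      · rw [Function.update_of_ne hi.ne]
        apply h2 i hi z
        intro j hj
        have := hz j hj
        rwa [Function.update_of_ne (by omega)] at this
      · rw [Function.update_self]
        have hzM : z ∈ M := by
          intro j hj
          have := hz j hj.le
          rwa [Function.update_of_ne (by omega)] at this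
        rw [real_inner_smul_left, hw ⟨z, hzM⟩]
        have := hz i le_rfl
        rw [Function.update_self] at this
        change _ * b' (S z) = 0
        rw [this, mul_zero]
    · intro i hi j hj
      rcases Nat.lt_succ_iff_lt_or_eq.mp hi with hi | rfl
      · rw [Function.update_of_ne hi.ne, Function.update_of_ne (by omega)]
        exact h3 i hi j hj
      · rw [Function.update_self, Function.update_of_ne hj.ne]
        exact hx'M j hj

/-- The isometry given by an orthonormal family. -/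
noncomputable def ofOrth {H : Type*} [NormedAddCommGroup H] [InnerProductSpace ℝ H] {n : ℕ}
    (x : Fin n → H) (hx : Orthonormal ℝ x) : EuclideanSpace ℝ (Fin n) →ₗᵢ[ℝ] H where
  toFun c := ∑ i, c i • x i
  map_add' a b := by simp [add_smul, Finset.sum_add_distrib]
  map_smul' a b := by simp [Finset.smul_sum, smul_smul]
  norm_map' c := by
    change ‖∑ i, c i • x i‖ = ‖c‖
    rw [← sq_eq_sq₀ (norm_nonneg _) (norm_nonneg _), ← real_inner_self_eq_norm_sq,
      hx.inner_sum, EuclideanSpace.norm_sq_eq]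
    apply Finset.sum_congr rfl
    intro i _
    simp [sq]

theorem ofOrth_apply {H : Type*} [NormedAddCommGroup H] [InnerProductSpace ℝ H] {n : ℕ}
    (x : Fin n → H) (hx : Orthonormal ℝ x) (c : EuclideanSpace ℝ (Fin n)) :
    ofOrth x hx c = ∑ i, c i • x i := rfl

theorem ofOrth_basis {H : Type*} [NormedAddCommGroup H] [InnerProductSpace ℝ H] {n : ℕ}
    (x : Fin n → H) (hx : Orthonormal ℝ x) (i : Fin n) :
    ofOrth x hx (EuclideanSpace.basisFun (Fin n) ℝ i) = x i := by
  rw [ofOrth_apply, Finset.sum_eq_single i]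
  · simp
  · intro j _ hj
    simp [hj]
  · intro h; exact absurd (Finset.mem_univ i) h

/-- An isometric copy of Euclidean space in `ℓ_2`. -/
theorem exists_iota (n : ℕ) : Nonempty (EuclideanSpace ℝ (Fin n) →ₗᵢ[ℝ] Ell2) := by
  let e : HilbertBasis ℕ ℝ Ell2 := HilbertBasis.ofRepr (LinearIsometryEquiv.refl ℝ Ell2)
  exact ⟨ofOrth (fun i : Fin n => e i) (e.orthonormal.comp _ Fin.val_injective)⟩

/-- The map `y ↦ n ^ (-1/2) (b i y)`. -/
noncomputable def coordMap {n : ℕ} (b : Fin n → (Y →L[ℝ] ℝ)) :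
    Y →ₗ[ℝ] EuclideanSpace ℝ (Fin n) where
  toFun y := WithLp.toLp 2 fun i => (Real.sqrt n)⁻¹ * b i y
  map_add' a c := by
    ext i
    simp [mul_add]
  map_smul' a c := by
    ext i
    simp
    ring

theorem coordMap_apply {n : ℕ} (b : Fin n → (Y →L[ℝ] ℝ)) (y : Y) (i : Fin n) :
    coordMap b y i = (Real.sqrt n)⁻¹ * b i y := rfl

theorem coordMap_bound {n : ℕ} (b : Fin n → (Y →L[ℝ] ℝ)) (hb : ∀ i, ‖b i‖ ≤ 1) (y : Y) :
    ‖coordMap b y‖ ≤ 1 * ‖y‖ := by
  rw [one_mul, ← sq_le_sq₀ (norm_nonneg _) (norm_nonneg _), EuclideanSpace.norm_sq_eq]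
  have h1 : ∀ i : Fin n, ‖coordMap b y i‖ ^ 2 ≤ (n : ℝ)⁻¹ * ‖y‖ ^ 2 := by
    intro i
    rw [coordMap_apply, norm_mul, mul_pow]
    have h2 : ‖(Real.sqrt n)⁻¹‖ ^ 2 = (n : ℝ)⁻¹ := by
      rw [Real.norm_eq_abs, sq_abs, inv_pow, Real.sq_sqrt (Nat.cast_nonneg n)]
    rw [h2]
    apply mul_le_mul_of_nonneg_left _ (by positivity)
    have h3 : ‖b i y‖ ≤ ‖y‖ := by
      calc ‖b i y‖ ≤ ‖b i‖ * ‖y‖ := (b i).le_opNorm y
        _ ≤ 1 * ‖y‖ := mul_le_mul_of_nonneg_right (hb i) (norm_nonneg _)
        _ = ‖y‖ := one_mul _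
    exact pow_le_pow_left₀ (norm_nonneg _) h3 2
  calc ∑ i, ‖coordMap b y i‖ ^ 2 ≤ ∑ _i : Fin n, (n : ℝ)⁻¹ * ‖y‖ ^ 2 :=
        Finset.sum_le_sum fun i _ => h1 i
    _ = (n : ℝ) * ((n : ℝ)⁻¹ * ‖y‖ ^ 2) := by simp
    _ ≤ ‖y‖ ^ 2 := by
        rcases Nat.eq_zero_or_pos n with rfl | hn
        · simp
        · have : (n : ℝ) ≠ 0 := by positivity
          rw [← mul_assoc, mul_inv_cancel₀ this, one_mul]

/-- Lower bounds for the Hilbert numbers by singular values. -/
theorem prod_le [CompleteSpace X] (S : X →L[ℝ] Y) (n : ℕ) (x : Fin n → X)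
    (hx : Orthonormal ℝ x) (b : Fin n → (Y →L[ℝ] ℝ)) (hb : ∀ i, ‖b i‖ ≤ 1)
    (htri : ∀ i k, i < k → b i (S (x k)) = 0) :
    ((Real.sqrt n)⁻¹) ^ n * ∏ i, b i (S (x i)) ≤
      ∏ k ∈ Finset.range n, hilbertNum k S (closedBall 0 1) := by
  classical
  obtain ⟨ι⟩ := exists_iota n
  let π : Ell2 →L[ℝ] EuclideanSpace ℝ (Fin n) :=
    ContinuousLinearMap.adjoint ι.toContinuousLinearMap
  have hπι : ∀ v, π (ι v) = v := by
    intro v
    apply ext_inner_right ℝ
    intro w
    change inner ℝ (ContinuousLinearMap.adjoint ι.toContinuousLinearMap (ι v)) w = _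
    rw [ContinuousLinearMap.adjoint_inner_left]
    exact ι.inner_map_map v w
  have hπn : ‖π‖ ≤ 1 := by
    have : ‖π‖ = ‖ι.toContinuousLinearMap‖ := by
      change ‖ContinuousLinearMap.adjoint ι.toContinuousLinearMap‖ = _
      exact LinearIsometryEquiv.norm_map _ _
    rw [this]
    exact ι.norm_toContinuousLinearMap_le
  let A0 : EuclideanSpace ℝ (Fin n) →ₗᵢ[ℝ] X := ofOrth x hx
  let B0 : Y →L[ℝ] EuclideanSpace ℝ (Fin n) := (coordMap b).mkContinuous 1 (coordMap_bound b hb)
  have hB0 : ‖B0‖ ≤ 1 := (coordMap b).mkContinuous_norm_le zero_le_one _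
  let T0 : EuclideanSpace ℝ (Fin n) →L[ℝ] EuclideanSpace ℝ (Fin n) :=
    B0 ∘L S ∘L A0.toContinuousLinearMap
  let T : EuclideanSpace ℝ (Fin n) →ₗ[ℝ] EuclideanSpace ℝ (Fin n) := T0.toLinearMap
  have hfr : finrank ℝ (EuclideanSpace ℝ (Fin n)) = n := by simp
  have hdet : LinearMap.det T = ((Real.sqrt n)⁻¹) ^ n * ∏ i, b i (S (x i)) := by
    let bb := EuclideanSpace.basisFun (Fin n) ℝ
    rw [← LinearMap.det_toMatrix bb.toBasis T]
    have hent : ∀ i k, LinearMap.toMatrix bb.toBasis bb.toBasis T i k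
        = (Real.sqrt n)⁻¹ * b i (S (x k)) := by
      intro i k
      rw [LinearMap.toMatrix_apply]
      change (T (bb.toBasis k)) i = _
      have : bb.toBasis k = bb k := by simp
      rw [this]
      change coordMap b (S (ofOrth x hx (bb k))) i = _
      rw [coordMap_apply]
      have : ofOrth x hx (bb k) = x k := ofOrth_basis x hx k
      rw [this]
    rw [Matrix.det_of_isLowerTriangular]
    · simp only [hent]
      rw [Finset.prod_mul_distrib, Finset.prod_const, Finset.card_univ, Fintype.card_fin]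
    · intro i k hik
      rw [hent, htri i k (by simpa using hik), mul_zero]
  have hprod : |LinearMap.det T| = ∏ k ∈ Finset.range n, T.singularValues k := by
    rw [← LinearMap.normDet_eq_abs_det, LinearMap.normDet_eq_prod_singularValues, hfr]
  have hk : ∀ k ∈ Finset.range n, T.singularValues k ≤ hilbertNum k S (closedBall 0 1) := by
    intro k hk
    rw [Finset.mem_range] at hk
    apply le_hilbertNum (ι.toContinuousLinearMap ∘L B0) (A0.toContinuousLinearMap ∘L π)
    · refine (ContinuousLinearMap.opNorm_comp_le _ _).trans ?_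
      exact mul_le_one₀ ι.norm_toContinuousLinearMap_le (norm_nonneg _) hB0
    · refine (ContinuousLinearMap.opNorm_comp_le _ _).trans ?_
      exact mul_le_one₀ A0.norm_toContinuousLinearMap_le (norm_nonneg _) hπn
    · apply le_gelfand
      intro L
      obtain ⟨v, hv1, hv2, hv3⟩ := exists_ge_singularValue T hfr hk
        (fun i => (L i).toLinearMap ∘ₗ ι.toLinearMap)
      refine ⟨ι v, by rw [ι.norm_map, hv1], fun i => hv2 i, ?_⟩
      have : ((ι.toContinuousLinearMap ∘L B0) ∘L S ∘L (A0.toContinuousLinearMap ∘L π)) (ι v)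
          = ι (T v) := by
        change ι (B0 (S (A0 (π (ι v))))) = ι (T v)
        rw [hπι]
        rfl
      rw [this, ι.norm_map]
      exact hv3
  calc ((Real.sqrt n)⁻¹) ^ n * ∏ i, b i (S (x i)) = LinearMap.det T := hdet.symm
    _ ≤ |LinearMap.det T| := le_abs_self _
    _ = ∏ k ∈ Finset.range n, T.singularValues k := hprod
    _ ≤ ∏ k ∈ Finset.range n, hilbertNum k S (closedBall 0 1) :=
        Finset.prod_le_prod (fun k _ => T.singularValues_nonneg k) hk

end X190.GH
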