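import Mathlib
import Pool.Agent.X190.GH.Constr

/-!
The inequality between Gelfand and Hilbert numbers on Hilbert domains.
-/

namespace X190.GH

open Metric Module

variable {X : Type*} {Y : Type*} [NormedAddCommGroup X] [InnerProductSpace ℝ X]
  [NormedAddCommGroup Y] [NormedSpace ℝ Y]

theorem hilbertNum_nonneg (k : ℕ) (S : X →L[ℝ] Y) : 0 ≤ hilbertNum k S (closedBall 0 1) := by
  apply Real.sSup_nonneg
  rintro _ ⟨B, A, x, -, -, -, rfl⟩
  exact gelfand_nonneg _ _

theorem prod_delta [CompleteSpace X] (S : X →L[ℝ] Y) (n : ℕ) (hn : 1 ≤ n) (δ : ℕ → ℝ)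
    (hδ : ∀ k < n, 0 ≤ δ k ∧ δ k < gelfand k S (closedBall 0 1)) :
    ∏ k ∈ Finset.range n, δ k ≤
      (Real.sqrt n) ^ n * ∏ k ∈ Finset.range n, hilbertNum k S (closedBall 0 1) := by
  obtain ⟨x, b, h1, h2, h3⟩ := construct S δ n hδ
  have horth : Orthonormal ℝ (fun i : Fin n => x i) := by
    refine ⟨fun i => (h1 i i.2).1, ?_⟩
    intro i k hik
    have key : ∀ i k : Fin n, i < k → inner ℝ (x i) (x k) = 0 := by
      intro i k hik
      apply h2 i i.2
      intro j hj
      exact h3 k k.2 j (lt_of_le_of_lt hj hik)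
    rcases lt_or_gt_of_ne hik with h | h
    · exact key i k h
    · change inner ℝ (x i) (x k) = 0
      rw [real_inner_comm]
      exact key k i h
  have h4 := prod_le S n (fun i => x i) horth (fun i => b i) (fun i => (h1 i i.2).2.1)
    (fun i k hik => h3 k k.2 i hik)
  have hsn : 0 < Real.sqrt n := Real.sqrt_pos.mpr (by exact_mod_cast hn)
  rw [inv_pow, inv_mul_le_iff₀ (pow_pos hsn n)] at h4
  refine le_trans ?_ h4
  rw [← Fin.prod_univ_eq_prod_range δ n]
  exact Finset.prod_le_prod (fun i _ => (hδ i i.2).1) fun i _ => (h1 i i.2).2.2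

theorem prod_gelfand [CompleteSpace X] (S : X →L[ℝ] Y) (n : ℕ) (hn : 1 ≤ n) :
    ∏ k ∈ Finset.range n, gelfand k S (closedBall 0 1) ≤
      (Real.sqrt n) ^ n * ∏ k ∈ Finset.range n, hilbertNum k S (closedBall 0 1) := by
  have hR : 0 ≤ (Real.sqrt n) ^ n * ∏ k ∈ Finset.range n, hilbertNum k S (closedBall 0 1) :=
    mul_nonneg (pow_nonneg (Real.sqrt_nonneg _) _)
      (Finset.prod_nonneg fun k _ => hilbertNum_nonneg k S)
  by_cases hz : ∃ k ∈ Finset.range n, gelfand k S (closedBall 0 1) = 0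
  · obtain ⟨k, hk, hk0⟩ := hz
    rw [Finset.prod_eq_zero hk hk0]
    exact hR
  push Not at hz
  have hpos : ∀ k < n, 0 < gelfand k S (closedBall 0 1) := fun k hk =>
    lt_of_le_of_ne (gelfand_nonneg k S) (hz k (Finset.mem_range.mpr hk)).symm
  have hlim : Filter.Tendsto (fun t : ℝ => t ^ n * ∏ k ∈ Finset.range n,
      gelfand k S (closedBall 0 1)) (nhdsWithin 1 (Set.Iio 1))
      (nhds (1 ^ n * ∏ k ∈ Finset.range n, gelfand k S (closedBall 0 1))) := by
    apply Filter.Tendsto.mono_left _ nhdsWithin_le_nhds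
    exact ((continuous_pow n).tendsto 1).mul_const _
  rw [one_pow, one_mul] at hlim
  refine le_of_tendsto hlim ?_
  filter_upwards [Ioo_mem_nhdsLT (show (0 : ℝ) < 1 by norm_num)] with t ht
  have h1 := prod_delta S n hn (fun k => t * gelfand k S (closedBall 0 1)) (by
    intro k hk
    refine ⟨mul_nonneg ht.1.le (hpos k hk).le, ?_⟩
    have := mul_lt_mul_of_pos_right ht.2 (hpos k hk)
    rwa [one_mul] at this)
  rw [Finset.prod_mul_distrib, Finset.prod_const, Finset.card_range] at h1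
  exact h1

/-- The geometric mean form. -/
theorem geo_mean [CompleteSpace X] (S : X →L[ℝ] Y) (n : ℕ) (hn : 1 ≤ n) :
    (∏ k ∈ Finset.range n, gelfand k S (closedBall 0 1)) ^ (1 / (n : ℝ)) ≤
      (n : ℝ) ^ (1 / 2 : ℝ) *
        (∏ k ∈ Finset.range n, hilbertNum k S (closedBall 0 1)) ^ (1 / (n : ℝ)) := by
  have hn0 : (n : ℝ) ≠ 0 := by positivity
  have hc : 0 ≤ ∏ k ∈ Finset.range n, gelfand k S (closedBall 0 1) :=
    Finset.prod_nonneg fun k _ => gelfand_nonneg k S
  have hh : 0 ≤ ∏ k ∈ Finset.range n, hilbertNum k S (closedBall 0 1) :=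
    Finset.prod_nonneg fun k _ => hilbertNum_nonneg k S
  have h1 := Real.rpow_le_rpow hc (prod_gelfand S n hn) (by positivity : 0 ≤ 1 / (n : ℝ))
  rw [Real.mul_rpow (pow_nonneg (Real.sqrt_nonneg _) _) hh] at h1
  have h2 : ((Real.sqrt n) ^ n) ^ (1 / (n : ℝ)) = (n : ℝ) ^ (1 / 2 : ℝ) := by
    rw [← Real.rpow_natCast, ← Real.rpow_mul (Real.sqrt_nonneg _), mul_one_div_cancel hn0,
      Real.rpow_one, Real.sqrt_eq_rpow]
  rwa [h2] at h1

theorem last_le_geo (S : X →L[ℝ] Y) (n : ℕ) (hn : 1 ≤ n) :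
    gelfand (n - 1) S (closedBall 0 1) ≤
      (∏ k ∈ Finset.range n, gelfand k S (closedBall 0 1)) ^ (1 / (n : ℝ)) := by
  have hn0 : (n : ℝ) ≠ 0 := by positivity
  have hg := gelfand_nonneg (n - 1) S
  have h1 : gelfand (n - 1) S (closedBall 0 1) ^ n ≤
      ∏ k ∈ Finset.range n, gelfand k S (closedBall 0 1) := by
    calc gelfand (n - 1) S (closedBall 0 1) ^ n
        = ∏ _k ∈ Finset.range n, gelfand (n - 1) S (closedBall 0 1) := by
          rw [Finset.prod_const, Finset.card_range]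
      _ ≤ _ := by
          apply Finset.prod_le_prod (fun _ _ => hg)
          intro k hk
          rw [Finset.mem_range] at hk
          exact gelfand_antitone S (by omega)
  have h2 := Real.rpow_le_rpow (pow_nonneg hg n) h1 (by positivity : 0 ≤ 1 / (n : ℝ))
  have h3 : (gelfand (n - 1) S (closedBall 0 1) ^ n) ^ (1 / (n : ℝ))
      = gelfand (n - 1) S (closedBall 0 1) := by
    rw [← Real.rpow_natCast, ← Real.rpow_mul hg, mul_one_div_cancel hn0, Real.rpow_one]
  rwa [h3] at h2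

end X190.GH
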